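import Mathlib
import Pool.Agent.Helper92.CB.Defs
import Pool.Agent.Helper92.CB.MBN
import Pool.Agent.Helper92.CB.DIV

/-!
# Blocks B1, B2 of P1+ (MP_b6b996_nt)
The moment bounds of Helper92/CB/MBA.lean for a general functional `Lf`, given by its values on the characters `ch W`.
-/

set_option autoImplicit false

namespace Pool.Agent.Helper87.LP

open Finset
open Pool.Agent.Helper92.GB (e ext F npi wt)
open Pool.Agent.Helper92.CB

private theorem MBG_succ (z : ℕ → ℕ) (hz : ∀ j, 2 ^ (z j ^ 2) < z (j + 1)) (hz1 : ∀ j, 16 ≤ z j) (j : ℕ) :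
    2 * z j < z (j + 1) := by
  refine lt_trans ?_ (hz j)
  have h1 : z j + 1 ≤ z j ^ 2 := by nlinarith [hz1 j]
  calc 2 * z j < 2 * 2 ^ (z j) := by
        have := Nat.lt_two_pow_self (n := z j)
        omega
    _ = 2 ^ (z j + 1) := by rw [pow_succ]; ring
    _ ≤ 2 ^ (z j ^ 2) := Nat.pow_le_pow_right (by norm_num) h1

private theorem MBG_mono (z : ℕ → ℕ) (hz : ∀ j, 2 ^ (z j ^ 2) < z (j + 1)) (hz1 : ∀ j, 16 ≤ z j) :
    StrictMono z := strictMono_nat_of_lt_succ fun j => by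
  have := MBG_succ z hz hz1 j
  omega

private theorem MBG_gap (z : ℕ → ℕ) (hz : ∀ j, 2 ^ (z j ^ 2) < z (j + 1)) (hz1 : ∀ j, 16 ≤ z j) {i j : ℕ}
    (h : i < j) : 4 * z i < 3 * z j := by
  have h1 := MBG_succ z hz hz1 i
  have h2 : z (i + 1) ≤ z j := (MBG_mono z hz hz1).monotone h
  have h3 := hz1 i
  omega

/-- the number of primes `> 3 z` in `kap` -/
private theorem MBG_kap {k : ℕ} (h : Fin k → ℕ) (N z : ℕ) (hz : 1 ≤ z) (hle : ∀ i, h i ≤ N)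
    (S : Finset ℕ) (hS : ∀ p ∈ S, p.Prime ∧ 3 * z < p) (n : ℕ) (hn : n ∈ sqf h N) :
    (kap h N n ∩ S).card ≤ k * Nat.log (3 * z) (2 * N) := by
  classical
  have hn' : 1 ≤ n ∧ n ≤ N := by
    unfold sqf at hn
    rw [Finset.mem_filter, Finset.mem_Icc] at hn
    exact hn.1
  have h1 : kap h N n ∩ S ⊆ (univ : Finset (Fin k)).biUnion (fun i => S.filter (fun p => p ∣ n + h i)) := by
    intro p hp
    rw [Finset.mem_inter] at hp
    obtain ⟨hp1, hp2⟩ := hp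
    unfold kap at hp1
    rw [Finset.mem_filter] at hp1
    have hpos := hp1.2.2.pos
    rw [Finset.card_pos] at hpos
    obtain ⟨i, hi⟩ := hpos
    rw [Finset.mem_filter] at hi
    rw [Finset.mem_biUnion]
    exact ⟨i, Finset.mem_univ _, Finset.mem_filter.mpr ⟨hp2, hi.2⟩⟩
  have h2 : ∀ i, (S.filter (fun p => p ∣ n + h i)).card ≤ Nat.log (3 * z) (2 * N) := by
    intro i
    have hd : ∏ p ∈ S.filter (fun p => p ∣ n + h i), p ∣ n + h i := by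
      refine Finset.prod_primes_dvd _ ?_ ?_
      · intro p hp
        exact ((hS p (Finset.mem_filter.mp hp).1).1).prime
      · intro p hp
        exact (Finset.mem_filter.mp hp).2
    have hle1 : ∏ p ∈ S.filter (fun p => p ∣ n + h i), p ≤ 2 * N := by
      refine (Nat.le_of_dvd (by omega) hd).trans ?_
      have := hle i
      omega
    have hle2 : (3 * z) ^ (S.filter (fun p => p ∣ n + h i)).card ≤
        ∏ p ∈ S.filter (fun p => p ∣ n + h i), p := by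
      refine Finset.pow_card_le_prod _ _ _ ?_
      intro p hp
      exact (hS p (Finset.mem_filter.mp hp).1).2.le
    exact Nat.le_log_of_pow_le (by omega) (hle2.trans hle1)
  calc (kap h N n ∩ S).card
      ≤ ((univ : Finset (Fin k)).biUnion (fun i => S.filter (fun p => p ∣ n + h i))).card :=
        Finset.card_le_card h1
    _ ≤ ∑ i, (S.filter (fun p => p ∣ n + h i)).card := Finset.card_biUnion_le
    _ ≤ ∑ _i : Fin k, Nat.log (3 * z) (2 * N) := Finset.sum_le_sum fun i _ => h2 i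
    _ = k * Nat.log (3 * z) (2 * N) := by simp


/-- the size of `Low` -/
private theorem MBG_low (δ : ℝ) (hδ0 : 0 < δ) (m N : ℕ) (h : 2 ^ (m ^ 2) ≤ N) :
    (2 : ℝ) ^ (4 * m) ≤ 2 ^ (4 / δ) * (N : ℝ) ^ δ := by
  have h2 : (2 : ℝ) ^ ((m : ℝ) ^ 2) ≤ N := by
    have h4 : ((2 : ℕ) ^ (m ^ 2) : ℝ) ≤ N := by exact_mod_cast h
    have h5 : (2 : ℝ) ^ ((m : ℝ) ^ 2) = ((2 : ℕ) : ℝ) ^ (m ^ 2) := by
      rw [← Nat.cast_pow, Real.rpow_natCast]
      norm_num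
    rw [h5]
    exact h4
  have h6 : (2 : ℝ) ^ (4 * m) ≤ 2 ^ (4 / δ) * (2 : ℝ) ^ ((m : ℝ) ^ 2 * δ) := by
    rw [← Real.rpow_add (by norm_num : (0 : ℝ) < 2), ← Real.rpow_natCast]
    refine Real.rpow_le_rpow_of_exponent_le (by norm_num) ?_
    push_cast
    have h7 : 0 ≤ δ * ((m : ℝ) - 2 / δ) ^ 2 := by positivity
    have h8 : δ * ((m : ℝ) - 2 / δ) ^ 2 = (m : ℝ) ^ 2 * δ - 4 * m + 4 / δ := by
      field_simp
      ring
    linarith
  have h9 : (2 : ℝ) ^ ((m : ℝ) ^ 2 * δ) ≤ (N : ℝ) ^ δ := by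
    rw [Real.rpow_mul (by norm_num : (0 : ℝ) ≤ 2)]
    exact Real.rpow_le_rpow (by positivity) h2 hδ0.le
  exact h6.trans (mul_le_mul_of_nonneg_left h9 (by positivity))

/-- the final computation -/
private theorem MBG_fin (k r : ℕ) (ε δ : ℝ) (hδ : δ = ε / 3) (C1 C2 : ℝ) (hC1 : 1 ≤ C1)
    (hC20 : 0 < C2) (N : ℕ) (hN : 1 ≤ N) (L t τ : ℕ) (hb1 : (2 : ℝ) ^ L ≤ C2 * (N : ℝ) ^ δ)
    (hb2 : Real.exp (8 * t) ≤ 2 ^ δ * (N : ℝ) ^ δ)
    (hAτ : (18 ^ (k * r) * 2 ^ (k + k ^ 2) : ℝ) ^ τ ≤ C1 * (N : ℝ) ^ δ) :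
    (18 : ℝ) ^ (k * τ * r * 2 ^ r) *
        (6 * k * N * 2 ^ (L + (k + k ^ 2) * τ) * Real.exp (8 * t)) ^ (2 ^ r) ≤
      (6 * k * C2 * C1 * 2 ^ δ) ^ (2 ^ r) * (N : ℝ) ^ ((1 + ε) * 2 ^ r) := by
  have hNr : (1 : ℝ) ≤ N := by exact_mod_cast hN
  have hN0 : (0 : ℝ) < N := by linarith
  set A : ℝ := 18 ^ (k * r) * 2 ^ (k + k ^ 2) with hA
  have e1 : (18 : ℝ) ^ (k * τ * r * 2 ^ r) *
        (6 * k * N * 2 ^ (L + (k + k ^ 2) * τ) * Real.exp (8 * t)) ^ (2 ^ r) =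
      (6 * k * N * 2 ^ L * A ^ τ * Real.exp (8 * t)) ^ (2 ^ r) := by
    have e2 : (18 : ℝ) ^ (k * τ * r * 2 ^ r) = ((18 : ℝ) ^ (k * r * τ)) ^ (2 ^ r) := by
      rw [← pow_mul]
      congr 1
      ring
    rw [e2, ← mul_pow]
    congr 1
    rw [hA, mul_pow, ← pow_mul, ← pow_mul, pow_add]
    ring
  rw [e1]
  have e3 : 6 * k * N * 2 ^ L * A ^ τ * Real.exp (8 * t) ≤
      (6 * k * C2 * C1 * 2 ^ δ) * (N : ℝ) ^ (1 + ε) := by
    have hA0 : 0 ≤ A ^ τ := by positivity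
    have hC10 : 0 < C1 := by linarith
    calc 6 * k * N * 2 ^ L * A ^ τ * Real.exp (8 * t)
        ≤ 6 * k * N * (C2 * (N : ℝ) ^ δ) * (C1 * (N : ℝ) ^ δ) * (2 ^ δ * (N : ℝ) ^ δ) := by
          gcongr
      _ = (6 * k * C2 * C1 * 2 ^ δ) * ((N : ℝ) ^ (1 : ℝ) * (N : ℝ) ^ δ * (N : ℝ) ^ δ * (N : ℝ) ^ δ) := by
          rw [Real.rpow_one]
          ring
      _ = (6 * k * C2 * C1 * 2 ^ δ) * (N : ℝ) ^ (1 + ε) := by
          rw [← Real.rpow_add hN0, ← Real.rpow_add hN0, ← Real.rpow_add hN0]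
          congr 2
          rw [hδ]
          ring
  have e4 : (0 : ℝ) ≤ 6 * k * N * 2 ^ L * A ^ τ * Real.exp (8 * t) := by positivity
  calc (6 * k * N * 2 ^ L * A ^ τ * Real.exp (8 * t)) ^ (2 ^ r)
      ≤ ((6 * k * C2 * C1 * 2 ^ δ) * (N : ℝ) ^ (1 + ε)) ^ (2 ^ r) := pow_le_pow_left₀ e4 e3 _
    _ = (6 * k * C2 * C1 * 2 ^ δ) ^ (2 ^ r) * (N : ℝ) ^ ((1 + ε) * 2 ^ r) := by
        rw [mul_pow]
        congr 1
        rw [Real.rpow_mul hN0.le, ← Real.rpow_natCast]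
        push_cast
        rfl

/-- the largest special index for `N` -/
private theorem MBG_max (z : ℕ → ℕ) (hz : ∀ j, 2 ^ (z j ^ 2) < z (j + 1)) (hz1 : ∀ j, 16 ≤ z j) (N : ℕ)
    (hex : ∃ j, 3 * z j < 2 * N) : ∃ j, 3 * z j < 2 * N ∧ ∀ i, 3 * z i < 2 * N → i ≤ j := by
  have hbd : ∀ i, 3 * z i < 2 * N → i ≤ 2 * N := by
    intro i hi
    have := (MBG_mono z hz hz1).id_le i
    simp only [id] at this
    omega
  obtain ⟨j0, hj0⟩ := hex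
  classical
  have hne : ((Finset.range (2 * N + 1)).filter (fun j => 3 * z j < 2 * N)).Nonempty :=
    ⟨j0, Finset.mem_filter.mpr ⟨Finset.mem_range.mpr (by have := hbd j0 hj0; omega), hj0⟩⟩
  obtain ⟨j, hj, hjmax⟩ := Finset.exists_max_image _ id hne
  refine ⟨j, (Finset.mem_filter.mp hj).2, fun i hi => ?_⟩
  exact hjmax i (Finset.mem_filter.mpr ⟨Finset.mem_range.mpr (by have := hbd i hi; omega), hi⟩)

/-- a bound for all special indices below `j` -/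
private theorem MBG_m (z : ℕ → ℕ) (hz : ∀ j, 2 ^ (z j ^ 2) < z (j + 1)) (hz1 : ∀ j, 16 ≤ z j) (j : ℕ) :
    ∃ m, 2 ^ (m ^ 2) ≤ z j ∧ ∀ i, i < j → z i ≤ m := by
  rcases j with _ | j
  · exact ⟨0, by have := hz1 0; simpa using this.trans' (by norm_num), fun i hi => absurd hi (Nat.not_lt_zero _)⟩
  · exact ⟨z j, (hz j).le, fun i hi => (MBG_mono z hz hz1).monotone (Nat.lt_succ_iff.mp hi)⟩

/-- (B1) `MBA` for a general functional. -/
theorem MBG (z : ℕ → ℕ) (hz : ∀ j, 2 ^ (z j ^ 2) < z (j + 1)) (hz1 : ∀ j, 16 ≤ z j) :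
    ∀ k : ℕ, 2 ≤ k → ∀ (r : ℕ) (ε : ℝ), 0 < ε → ∃ C : ℝ, ∀ N : ℕ, 1 ≤ N →
      ∀ h : Fin k → ℕ, Function.Injective h → (∀ i, h i ≤ N) → ∀ a : ℕ → ℝ, (∀ n, |a n| ≤ 1) →
      ∀ Lf : ((ℕ → ℤˣ) → ℝ) →ₗ[ℝ] ℝ,
      (∀ W : Finset ℕ, (∀ p ∈ W, p.Prime ∧ p ≤ 2 * N) →
        (∃ p ∈ W, ¬ ∃ j, 3 * z j < p ∧ p ≤ 4 * z j) → Lf (ch W) = 0) →
      (∀ W : Finset ℕ, (∀ p ∈ W, p.Prime ∧ p ≤ 2 * N) → |Lf (ch W)| ≤ 1) →
      (∀ j, 3 * z j < 2 * N → ∀ W : Finset ℕ, (∀ p ∈ W, p.Prime ∧ p ≤ 2 * N) →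
        |Lf (ch W)| ≤ (Real.sqrt (min 1 ((W.filter fun p => 3 * z j < p ∧ p ≤ 4 * z j).card /
          Real.sqrt (z j)))) ^ (W.filter fun p => 3 * z j < p ∧ p ≤ 4 * z j).card) →
      Lf (fun f => (∑ n ∈ sqf h N, a n * ch (kap h N n) f) ^ (2 ^ (r + 1))) ≤
        C * (N : ℝ) ^ ((1 + ε) * 2 ^ r) := by
  classical
  intro k hk r ε hε
  obtain ⟨δ, hδ⟩ : ∃ δ : ℝ, δ = ε / 3 := ⟨_, rfl⟩
  have hδ0 : 0 < δ := by rw [hδ]; positivity
  -- the threshold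
  obtain ⟨Q, hQ⟩ : ∃ Q : ℝ, Q = 8 * k * 2 ^ (r + 1) / δ := ⟨_, rfl⟩
  obtain ⟨B, hB⟩ : ∃ B : ℕ, B = ⌈Real.exp Q⌉₊ := ⟨_, rfl⟩
  have hBlog : ∀ y : ℕ, B ≤ y → Q ≤ Real.log (3 * y : ℕ) := by
    intro y hy
    rw [hB] at hy
    have h2 : Real.exp Q ≤ (y : ℝ) := (Nat.le_ceil _).trans (by exact_mod_cast hy)
    rw [Real.le_log_iff_exp_le]
    · push_cast
      nlinarith [Real.exp_pos Q]
    · have := Real.exp_pos Q
      push_cast
      linarith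
  -- the divisor bound
  have hA1 : (1 : ℝ) ≤ 18 ^ (k * r) * 2 ^ (k + k ^ 2) :=
    one_le_mul_of_one_le_of_one_le (one_le_pow₀ (by norm_num)) (one_le_pow₀ (by norm_num))
  obtain ⟨C1, hC1, hdiv⟩ := DIV2 (18 ^ (k * r) * 2 ^ (k + k ^ 2)) δ hA1 hδ0
  obtain ⟨C2, hC2⟩ : ∃ C2 : ℝ, C2 = 2 ^ (4 * B) + (2 : ℝ) ^ (4 / δ) := ⟨_, rfl⟩
  have hC20 : 0 < C2 := by rw [hC2]; positivity
  refine ⟨(6 * k * C2 * C1 * 2 ^ δ) ^ (2 ^ r), ?_⟩
  intro N hN h hinj hle a ha Lf hLz hL1 hLs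
  have hNr : (1 : ℝ) ≤ N := by exact_mod_cast hN
  have hN0 : (0 : ℝ) < N := by linarith
  have hNδ : 1 ≤ (N : ℝ) ^ δ := Real.one_le_rpow hNr hδ0.le
  obtain ⟨τ, hτ, hAτ⟩ := hdiv N hN
  by_cases hcase : ∃ j, 3 * z j < 2 * N ∧ B ≤ z j
  · obtain ⟨j, hj, hjmax⟩ := MBG_max z hz hz1 N ⟨hcase.choose, hcase.choose_spec.1⟩
    have hjB : B ≤ z j := by
      obtain ⟨j0, hj0, hj0B⟩ := hcase
      exact hj0B.trans ((MBG_mono z hz hz1).monotone (hjmax j0 hj0))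
    obtain ⟨m, hm1, hm2⟩ := MBG_m z hz hz1 j
    have hzN : z j ≤ N := by omega
    obtain ⟨S, hSd⟩ : ∃ S : Finset ℕ, S = (Ioc (3 * z j) (4 * z j)).filter Nat.Prime := ⟨_, rfl⟩
    have hSm : ∀ p, p ∈ S ↔ (3 * z j < p ∧ p ≤ 4 * z j) ∧ p.Prime := by
      intro p
      rw [hSd, Finset.mem_filter, Finset.mem_Ioc]
    have hSp : ∀ p ∈ S, p.Prime ∧ 3 * z j < p ∧ p ≤ 4 * z j := fun p hp =>
      ⟨((hSm p).mp hp).2, ((hSm p).mp hp).1⟩
    have hz' : 1 ≤ z j := (by norm_num : 1 ≤ 16).trans (hz1 j)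
    have ht : ∀ n ∈ sqf h N, (kap h N n ∩ S).card * 2 ^ (r + 1) ≤
        k * Nat.log (3 * z j) (2 * N) * 2 ^ (r + 1) := fun n hn =>
      Nat.mul_le_mul_right _ (MBG_kap h N (z j) hz' hle S (fun p hp => ⟨(hSp p hp).1, (hSp p hp).2.1⟩) n hn)
    have hmain := MBN (by omega : 1 ≤ k) r N (z j) hN hz' h hinj hle a ha S (Finset.Icc 1 (4 * m)) hSp
      (Or.inl hk) τ hτ _ ht Lf
      (by
        intro W hW hsub
        rw [Finset.not_subset] at hsub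
        obtain ⟨p, hp, hpS⟩ := hsub
        obtain ⟨hp1, hp2⟩ := hW p hp
        rw [Finset.mem_union, not_or, Finset.mem_Icc] at hpS
        obtain ⟨hpS1, hpS2⟩ := hpS
        refine hLz W hW ⟨p, hp, ?_⟩
        rintro ⟨i, hi1, hi2⟩
        rcases lt_or_eq_of_le (hjmax i (by omega)) with h3 | h3
        · exact hpS2 ⟨hp1.one_lt.le, hi2.trans (Nat.mul_le_mul_left _ (hm2 i h3))⟩
        · subst h3
          exact hpS1 ((hSm p).mpr ⟨⟨hi1, hi2⟩, hp1⟩))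
      (by
        intro W hW
        have e0 : W ∩ S = W.filter fun p => 3 * z j < p ∧ p ≤ 4 * z j := by
          apply Finset.ext
          intro p
          rw [Finset.mem_inter, Finset.mem_filter, hSm]
          constructor
          · exact fun h => ⟨h.1, h.2.1⟩
          · exact fun h => ⟨h.1, h.2, (hW p h.1).1⟩
        rw [e0]
        exact hLs j hj W hW)
    refine hmain.trans ?_
    have hcard : (Finset.Icc 1 (4 * m)).card = 4 * m := by simp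
    rw [hcard]
    refine MBG_fin k r ε δ hδ C1 C2 hC1 hC20 N hN (4 * m) _ τ ?_ ?_ hAτ
    · refine (MBG_low δ hδ0 m N (hm1.trans hzN)).trans ?_
      refine mul_le_mul_of_nonneg_right ?_ (by positivity)
      rw [hC2]
      have : (0 : ℝ) ≤ 2 ^ (4 * B) := by positivity
      linarith
    · rw [← Real.mul_rpow (by norm_num : (0 : ℝ) ≤ 2) hN0.le, Real.rpow_def_of_pos (by positivity : (0 : ℝ) < 2 * N)]
      rw [Real.exp_le_exp]
      obtain ⟨q, hq⟩ : ∃ q : ℕ, q = Nat.log (3 * z j) (2 * N) := ⟨_, rfl⟩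
      rw [← hq]
      have h2 : (q : ℝ) * Real.log (3 * z j : ℕ) ≤ Real.log (2 * N) := by
        have h3 : (3 * z j) ^ q ≤ 2 * N := by rw [hq]; exact Nat.pow_log_le_self _ (by omega)
        have h4 : (((3 * z j : ℕ) : ℝ)) ^ q ≤ 2 * N := by exact_mod_cast h3
        rw [← Real.log_pow]
        refine Real.log_le_log ?_ h4
        have h5 : 0 < 3 * z j := by omega
        positivity
      have h6 := hBlog (z j) hjB
      have h7 : (0 : ℝ) ≤ q := Nat.cast_nonneg _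
      have h8 : Q * q ≤ Real.log (2 * N) := by
        calc Q * q ≤ Real.log (3 * z j : ℕ) * q := mul_le_mul_of_nonneg_right h6 h7
          _ = q * Real.log (3 * z j : ℕ) := mul_comm _ _
          _ ≤ _ := h2
      have h9 : 8 * ((k * q * 2 ^ (r + 1) : ℕ) : ℝ) = Q * q * δ := by
        rw [hQ]
        push_cast
        field_simp
      rw [h9]
      exact mul_le_mul_of_nonneg_right h8 hδ0.le
  · -- all relevant indices are small
    push Not at hcase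
    have hmain := MBN (by omega : 1 ≤ k) r N 1 hN le_rfl h hinj hle a ha ∅ (Finset.Icc 1 (4 * B))
      (fun p hp => absurd hp (Finset.notMem_empty _)) (Or.inr rfl) τ hτ 0
      (fun n _ => by rw [Finset.inter_empty, Finset.card_empty, zero_mul]) Lf
      (by
        intro W hW hsub
        rw [Finset.not_subset] at hsub
        obtain ⟨p, hp, hpS⟩ := hsub
        obtain ⟨hp1, hp2⟩ := hW p hp
        rw [Finset.mem_union, not_or, Finset.mem_Icc] at hpS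
        obtain ⟨-, hpS2⟩ := hpS
        refine hLz W hW ⟨p, hp, ?_⟩
        rintro ⟨i, hi1, hi2⟩
        exact hpS2 ⟨hp1.one_lt.le, hi2.trans (Nat.mul_le_mul_left _ (hcase i (by omega)).le)⟩)
      (by
        intro W hW
        rw [Finset.inter_empty, Finset.card_empty, pow_zero]
        exact hL1 W hW)
    refine hmain.trans ?_
    have hcard : (Finset.Icc 1 (4 * B)).card = 4 * B := by simp
    rw [hcard]
    refine MBG_fin k r ε δ hδ C1 C2 hC1 hC20 N hN (4 * B) _ τ ?_ ?_ hAτ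
    · have h2 : (2 : ℝ) ^ (4 * B) ≤ C2 := by
        rw [hC2]
        have : (0 : ℝ) ≤ (2 : ℝ) ^ (4 / δ) := by positivity
        linarith
      calc (2 : ℝ) ^ (4 * B) ≤ C2 * 1 := by rw [mul_one]; exact h2
        _ ≤ C2 * (N : ℝ) ^ δ := mul_le_mul_of_nonneg_left hNδ hC20.le
    · have h2 : (1 : ℝ) ≤ 2 ^ δ := Real.one_le_rpow (by norm_num) hδ0.le
      rw [Nat.cast_zero, mul_zero, Real.exp_zero]
      exact one_le_mul_of_one_le_of_one_le h2 hNδ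

/-- (B2) The top special block is free: `k ≥ 1`. -/
theorem MBG1 (z : ℕ → ℕ) (hz : ∀ j, 2 ^ (z j ^ 2) < z (j + 1)) (hz1 : ∀ j, 16 ≤ z j) :
    ∀ k : ℕ, 1 ≤ k → ∀ (r : ℕ) (ε : ℝ), 0 < ε → ∃ C : ℝ, ∀ N : ℕ, 1 ≤ N →
      ∀ h : Fin k → ℕ, Function.Injective h → (∀ i, h i ≤ N) → ∀ a : ℕ → ℝ, (∀ n, |a n| ≤ 1) →
      ∀ Lf : ((ℕ → ℤˣ) → ℝ) →ₗ[ℝ] ℝ,
      (∀ W : Finset ℕ, (∀ p ∈ W, p.Prime ∧ p ≤ 2 * N) →
        (∃ p ∈ W, ¬ ∃ i j, i < j ∧ 3 * z j < 2 * N ∧ 3 * z i < p ∧ p ≤ 4 * z i) → Lf (ch W) = 0) →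
      (∀ W : Finset ℕ, (∀ p ∈ W, p.Prime ∧ p ≤ 2 * N) → |Lf (ch W)| ≤ 1) →
      Lf (fun f => (∑ n ∈ sqf h N, a n * ch (kap h N n) f) ^ (2 ^ (r + 1))) ≤
        C * (N : ℝ) ^ ((1 + ε) * 2 ^ r) := by
  classical
  intro k hk r ε hε
  obtain ⟨δ, hδ⟩ : ∃ δ : ℝ, δ = ε / 3 := ⟨_, rfl⟩
  have hδ0 : 0 < δ := by rw [hδ]; positivity
  have hA1 : (1 : ℝ) ≤ 18 ^ (k * r) * 2 ^ (k + k ^ 2) :=
    one_le_mul_of_one_le_of_one_le (one_le_pow₀ (by norm_num)) (one_le_pow₀ (by norm_num))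
  obtain ⟨C1, hC1, hdiv⟩ := DIV2 (18 ^ (k * r) * 2 ^ (k + k ^ 2)) δ hA1 hδ0
  obtain ⟨C2, hC2⟩ : ∃ C2 : ℝ, C2 = (2 : ℝ) ^ (4 / δ) := ⟨_, rfl⟩
  have hC20 : 0 < C2 := by rw [hC2]; positivity
  refine ⟨(6 * k * C2 * C1 * 2 ^ δ) ^ (2 ^ r), ?_⟩
  intro N hN h hinj hle a ha Lf hLz hL1
  have hNr : (1 : ℝ) ≤ N := by exact_mod_cast hN
  have hNδ : 1 ≤ (N : ℝ) ^ δ := Real.one_le_rpow hNr hδ0.le
  obtain ⟨τ, hτ, hAτ⟩ := hdiv N hN
  obtain ⟨m, hmN, hm2⟩ : ∃ m, 2 ^ (m ^ 2) ≤ N ∧ ∀ i j, i < j → 3 * z j < 2 * N → z i ≤ m := by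
    by_cases hex : ∃ j, 3 * z j < 2 * N
    · obtain ⟨j, hj, hjmax⟩ := MBG_max z hz hz1 N hex
      obtain ⟨m, hm1, hm2⟩ := MBG_m z hz hz1 j
      exact ⟨m, hm1.trans (by omega), fun i j' hij hj' => hm2 i (lt_of_lt_of_le hij (hjmax j' hj'))⟩
    · exact ⟨0, by simpa using hN, fun i j _ hj => absurd ⟨j, hj⟩ hex⟩
  have hmain := MBN hk r N 1 hN le_rfl h hinj hle a ha ∅ (Finset.Icc 1 (4 * m))
    (fun p hp => absurd hp (Finset.notMem_empty _)) (Or.inr rfl) τ hτ 0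
    (fun n _ => by rw [Finset.inter_empty, Finset.card_empty, zero_mul]) Lf
    (by
      intro W hW hsub
      rw [Finset.not_subset] at hsub
      obtain ⟨p, hp, hpS⟩ := hsub
      obtain ⟨hp1, hp2⟩ := hW p hp
      rw [Finset.mem_union, not_or, Finset.mem_Icc] at hpS
      obtain ⟨-, hpS2⟩ := hpS
      refine hLz W hW ⟨p, hp, ?_⟩
      rintro ⟨i, j, hij, hj, hi1, hi2⟩
      exact hpS2 ⟨hp1.one_lt.le, hi2.trans (Nat.mul_le_mul_left _ (hm2 i j hij hj))⟩)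
    (by
      intro W hW
      rw [Finset.inter_empty, Finset.card_empty, pow_zero]
      exact hL1 W hW)
  refine hmain.trans ?_
  have hcard : (Finset.Icc 1 (4 * m)).card = 4 * m := by simp
  rw [hcard]
  refine MBG_fin k r ε δ hδ C1 C2 hC1 hC20 N hN (4 * m) _ τ ?_ ?_ hAτ
  · rw [hC2]
    exact MBG_low δ hδ0 m N hmN
  · have h2 : (1 : ℝ) ≤ 2 ^ δ := Real.one_le_rpow (by norm_num) hδ0.le
    rw [Nat.cast_zero, mul_zero, Real.exp_zero]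
    exact one_le_mul_of_one_le_of_one_le h2 hNδ

end Pool.Agent.Helper87.LP
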